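import Pool.Agent.H62.UN.Targets

/-!
# MP_8b378c_ag: row LVD, the components of the degenerate fibres
-/

set_option autoImplicit false

namespace Pool.Agent.H4.UNT

open Polynomial Pool.Agent.H17.UN Pool.Agent.H62.UN

theorem val_mul_pos {E : Type} [Field E] {o : E → ℤ} (ho : IsVal o) {p c : E}
    (hp : 0 < o p) (hc : 0 ≤ o c) : p * c = 0 ∨ 0 < o (p * c) := by
  by_cases h : p * c = 0
  · exact Or.inl h
  · right
    rw [ho.mul p c (left_ne_zero_of_mul h) (right_ne_zero_of_mul h)]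
    omega

theorem val_add_pos {E : Type} [Field E] {o : E → ℤ} (ho : IsVal o) {p q : E}
    (hp : p = 0 ∨ 0 < o p) (hq : q = 0 ∨ 0 < o q) (h : p + q ≠ 0) : 0 < o (p + q) := by
  by_cases hp0 : p = 0
  · subst hp0
    rw [zero_add] at h ⊢
    exact hq.resolve_left h
  · by_cases hq0 : q = 0
    · subst hq0
      rw [add_zero] at h ⊢
      exact hp.resolve_left h
    · have h1 := ho.add p q hp0 hq0 h
      have h2 := hp.resolve_left hp0
      have h3 := hq.resolve_left hq0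
      have h4 : 0 < min (o p) (o q) := lt_min h2 h3
      omega

theorem pf_LVD : T_LVD := by
  intro hNFI hDEG hNOE hDVC hCTQ hUNQ k E _ _ _ _ P Q x y z hch a l hl hl2
  obtain ⟨e, hex, hey, hez⟩ := hNFI k E P Q x y z hch
  obtain ⟨⟨c0, hc0⟩, φ, hφx, hφz, hφy, hφk⟩ := hDEG k P Q a l hl2
  obtain ⟨-, φ', -, hφz', hφy', -⟩ := hDEG k P Q a (-l) (by rw [neg_sq]; exact hl2)
  obtain ⟨hN, hF⟩ := hNOE k E x y z hch.gen
  have h2l : l + l ≠ 0 := by
    rw [← two_mul]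
    exact mul_ne_zero two_ne_zero hl
  have haev : ∀ χ : CR P Q →ₐ[k] k[X], χ (zC P Q) = X → χ (aeval (zC P Q) l) = l := by
    intro χ h
    rw [← Polynomial.aeval_algHom_apply, h, Polynomial.aeval_X_left_apply]
  have hez' : ((e (aeval (zC P Q) l) : cr k x y z) : E) = aeval z l := by
    have h1 : ((e (aeval (zC P Q) l) : cr k x y z) : E) =
        ((cr k x y z).val.comp (e : CR P Q →ₐ[k] cr k x y z)) (aeval (zC P Q) l) := rfl
    rw [h1, ← Polynomial.aeval_algHom_apply]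
    have h2 : ((cr k x y z).val.comp (e : CR P Q →ₐ[k] cr k x y z)) (zC P Q) = z := hez
    rw [h2]
  obtain ⟨X₀, hX₀⟩ : ∃ X₀ : cr k x y z, X₀ = e (xC P Q - algebraMap k (CR P Q) a) := ⟨_, rfl⟩
  obtain ⟨L₀, hL₀⟩ : ∃ L₀ : cr k x y z, L₀ = e (yC P Q - aeval (zC P Q) l) := ⟨_, rfl⟩
  obtain ⟨U₀, hU₀⟩ : ∃ U₀ : cr k x y z, U₀ = e (yC P Q + aeval (zC P Q) l) := ⟨_, rfl⟩
  have hX₁ : (X₀ : E) = x - algebraMap k E a := by
    rw [hX₀, map_sub, AddSubgroupClass.coe_sub, hex, AlgEquiv.commutes]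
    rfl
  have hL₁ : (L₀ : E) = y - aeval z l := by
    rw [hL₀, map_sub, AddSubgroupClass.coe_sub, hey, hez']
  have hUL : U₀ * L₀ = X₀ * e c0 := by
    rw [hU₀, hL₀, hX₀, ← map_mul, ← map_mul, ← hc0]
    congr 1
    ring
  obtain ⟨ψ, hψ⟩ : ∃ ψ : cr k x y z →ₐ[k] k[X], ∀ b, ψ (e b) = φ b :=
    ⟨φ.comp (e.symm : cr k x y z →ₐ[k] CR P Q), fun b => by simp⟩
  obtain ⟨q, hq⟩ : ∃ q : Ideal (cr k x y z), q = RingHom.ker (ψ : cr k x y z →ₐ[k] k[X]) := ⟨_, rfl⟩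
  have hqm : ∀ b, b ∈ q ↔ ψ b = 0 := by
    intro b
    rw [hq]
    exact RingHom.mem_ker
  have hqp : q.IsPrime := by
    rw [hq]
    exact RingHom.ker_isPrime _
  have hXq : X₀ ∈ q := by
    rw [hqm, hX₀, hψ, map_sub, hφx, AlgHom.commutes]
    exact sub_self _
  have hLq : L₀ ∈ q := by
    rw [hqm, hL₀, hψ, map_sub, hφy, haev φ hφz, sub_self]
  have hUq : U₀ ∉ q := by
    rw [hqm, hU₀, hψ, map_add, hφy, haev φ hφz]
    exact h2l
  have hL0 : L₀ ≠ 0 := by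
    intro h
    rw [hL₀] at h
    have h1 : yC P Q - aeval (zC P Q) l = 0 := by
      apply e.injective
      rw [h, map_zero]
    have h2 := congrArg φ' h1
    rw [map_sub, hφy', haev φ' hφz', map_zero] at h2
    apply h2l
    linear_combination -h2
  have hU0 : U₀ ≠ 0 := by
    intro h
    exact hUq (h ▸ q.zero_mem)
  have hX0 : X₀ ≠ 0 := by
    intro h
    rw [h, zero_mul] at hUL
    exact mul_ne_zero hU0 hL0 hUL
  have hdec : ∀ b ∈ q, ∃ c d, b = X₀ * c + L₀ * d := by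
    intro b hb
    rw [hqm] at hb
    obtain ⟨b', rfl⟩ := e.surjective b
    rw [hψ] at hb
    obtain ⟨c, d, hcd⟩ := hφk b' hb
    refine ⟨e c, e d, ?_⟩
    rw [hX₀, hL₀, ← map_mul, ← map_mul, ← map_add, ← hcd]
  have hUb : ∀ b ∈ q, ∃ c, U₀ * b = X₀ * c := by
    intro b hb
    obtain ⟨c, d, hcd⟩ := hdec b hb
    refine ⟨U₀ * c + e c0 * d, ?_⟩
    rw [hcd]
    linear_combination d * hUL
  obtain ⟨o, ho, hoc, hoX, hoq⟩ := hDVC k E (cr k x y z) hN hF q X₀ U₀ hqp hXq hX0 hUq hUb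
  have hoU : o (U₀ : E) = 0 := by
    have h1 := hoc.nn _ U₀.2
    by_contra h
    exact hUq (hoq U₀ (lt_of_le_of_ne h1 (Ne.symm h)))
  have hpos : ∀ b ∈ q, b ≠ 0 → 0 < o (b : E) := by
    intro b hb hb0
    obtain ⟨c, hc⟩ := hUb b hb
    have hc0' : c ≠ 0 := by
      intro h
      rw [h, mul_zero] at hc
      exact mul_ne_zero hU0 hb0 hc
    have h1 : (U₀ : E) * (b : E) = (X₀ : E) * (c : E) := by
      rw [← MulMemClass.coe_mul, hc, MulMemClass.coe_mul]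
    have h2 := congrArg o h1
    have e1 : (U₀ : E) ≠ 0 := fun h => hU0 (Subtype.ext h)
    have e2 : (b : E) ≠ 0 := fun h => hb0 (Subtype.ext h)
    have e3 : (X₀ : E) ≠ 0 := fun h => hX0 (Subtype.ext h)
    have e4 : (c : E) ≠ 0 := fun h => hc0' (Subtype.ext h)
    rw [ho.mul _ _ e1 e2, ho.mul _ _ e3 e4, hoU, hoX] at h2
    have h3 := hoc.nn _ c.2
    omega
  refine ⟨o, ho, hoc, ?_, ?_, ?_, ?_⟩
  · rw [← hX₁]
    exact hoX
  · have h1 : e (zC P Q) ∉ q := by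
      rw [hqm, hψ, hφz]
      exact X_ne_zero
    have h2 := hoc.nn _ (e (zC P Q)).2
    rw [← hez]
    by_contra h
    exact h1 (hoq _ (lt_of_le_of_ne h2 (Ne.symm h)))
  · rw [← hL₁]
    exact hpos L₀ hLq hL0
  · intro o' ho' hoc' h1 h2
    rw [← hX₁] at h1
    rw [← hL₁] at h2
    have hpos' : ∀ b ∈ q, b ≠ 0 → 0 < o' (b : E) := by
      intro b hb hb0
      obtain ⟨c, d, hcd⟩ := hdec b hb
      have e2 : (b : E) ≠ 0 := fun h => hb0 (Subtype.ext h)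
      have e3 : (b : E) = (X₀ : E) * (c : E) + (L₀ : E) * (d : E) := by
        rw [hcd]
        rfl
      rw [e3] at e2 ⊢
      exact val_add_pos ho' (val_mul_pos ho' h1 (hoc'.nn _ c.2))
        (val_mul_pos ho' h2 (hoc'.nn _ d.2)) e2
    have hq' := hCTQ k E (cr k x y z) o' ho' hoc' q hqp ⟨X₀, hXq, hX0⟩ hpos'
    symm
    apply hUNQ k E (cr k x y z) o o' ho ho' hoc hoc'
    intro b hb hb'
    have h3 := hq' ⟨b, hb⟩ hb'
    refine hpos ⟨b, hb⟩ h3 ?_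
    intro h
    have h4 : b = 0 := congrArg Subtype.val h
    rw [h4, ho'.zero] at hb'
    exact lt_irrefl _ hb'

end Pool.Agent.H4.UNT
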