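import Pool.Agent.H62.UN.Targets

/-!
# MP_8b378c_ag: row VZA, vertical prime divisors are centred on the charts `0` and `2`
-/

set_option autoImplicit false

namespace Pool.Agent.H4.UNT

open Polynomial Pool.Agent.H17.UN Pool.Agent.H62.UN

section

variable {k E : Type} [Field k] [Field E] [Algebra k E]

/-- The elements with non-negative order. -/
def vnn {o : E → ℤ} (ho : IsVal o) (hk : ∀ c : k, 0 ≤ o (algebraMap k E c)) :
    Subalgebra k E where
  carrier := {f | 0 ≤ o f}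
  mul_mem' := by
    intro f g hf hg
    by_cases h : f * g = 0
    · change 0 ≤ o (f * g)
      rw [h, ho.zero]
    · change 0 ≤ o (f * g)
      rw [ho.mul f g (left_ne_zero_of_mul h) (right_ne_zero_of_mul h)]
      exact add_nonneg hf hg
  add_mem' := by
    intro f g hf hg
    change 0 ≤ o (f + g)
    by_cases hf0 : f = 0
    · rw [hf0, zero_add]; exact hg
    by_cases hg0 : g = 0
    · rw [hg0, add_zero]; exact hf
    by_cases h : f + g = 0
    · rw [h, ho.zero]
    · exact le_trans (le_min hf hg) (ho.add f g hf0 hg0 h)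
  algebraMap_mem' := hk

theorem mem_vnn {o : E → ℤ} (ho : IsVal o) (hk : ∀ c : k, 0 ≤ o (algebraMap k E c)) (f : E) :
    f ∈ vnn ho hk ↔ 0 ≤ o f := Iff.rfl

theorem val_inv {o : E → ℤ} (ho : IsVal o) {f : E} (hf : f ≠ 0) : o f⁻¹ = - o f := by
  have h1 : o (1 : E) = 0 := by
    have h := ho.mul 1 1 one_ne_zero one_ne_zero
    rw [one_mul] at h
    omega
  have h2 := ho.mul f f⁻¹ hf (inv_ne_zero hf)
  rw [mul_inv_cancel₀ hf, h1] at h2
  omega

/-- The chart is contained in the valuation ring. -/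
theorem chart_nn {P Q : k[X]} {x y z : E} (h : Chart P Q x y z) {o : E → ℤ} (ho : IsVal o)
    (hk : ∀ c : k, 0 ≤ o (algebraMap k E c)) {a : k} (hx : 0 < o (x - algebraMap k E a))
    (hz : 0 ≤ o z) : ∀ b ∈ cr k x y z, 0 ≤ o b := by
  have hxm : x ∈ vnn ho hk := by
    have h1 : x - algebraMap k E a ∈ vnn ho hk := by
      rw [mem_vnn]
      exact hx.le
    have h2 := Subalgebra.add_mem _ h1 ((vnn ho hk).algebraMap_mem a)
    rwa [sub_add_cancel] at h2
  have hzm : z ∈ vnn ho hk := hz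
  have hae : ∀ p : k[X], aeval x p ∈ vnn ho hk := by
    intro p
    have h1 : Algebra.adjoin k {x} ≤ vnn ho hk := by
      rw [Algebra.adjoin_le_iff]
      intro w hw
      rw [Set.mem_singleton_iff] at hw
      rw [hw]
      exact hxm
    exact h1 (aeval_mem_adjoin_singleton k x)
  have hy2 : y ^ 2 ∈ vnn ho hk := by
    rw [h.eq]
    exact Subalgebra.add_mem _ (hae P) (Subalgebra.mul_mem _ (hae Q) (Subalgebra.pow_mem _ hzm 2))
  have hym : y ∈ vnn ho hk := by
    rw [mem_vnn] at hy2 ⊢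
    by_cases hy0 : y = 0
    · rw [hy0, ho.zero]
    · rw [sq, ho.mul y y hy0 hy0] at hy2
      omega
  have h3 : cr k x y z ≤ vnn ho hk := by
    rw [Algebra.adjoin_le_iff]
    intro w hw
    simp only [Set.mem_insert_iff, Set.mem_singleton_iff] at hw
    rcases hw with rfl | rfl | rfl
    · exact hxm
    · exact hym
    · exact hzm
  intro b hb
  exact h3 hb

theorem not_both {P Q : k[X]} (h : (P * Q).Separable) (a : k) (hP : P.eval a = 0)
    (hQ : Q.eval a = 0) : False := by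
  obtain ⟨u, w, huw⟩ := h
  have h1 := congrArg (Polynomial.eval a) huw
  rw [derivative_mul] at h1
  simp only [eval_add, eval_mul, hP, hQ, eval_one] at h1
  simp at h1

end

/-- One chart. -/
theorem one_chart (hLVR : LVR) (hLVD : LVD) (hLVS : LVS) {k E : Type} [Field k] [IsAlgClosed k]
    [CharZero k] [Field E] [Algebra k E] {P Q : k[X]} {x y z : E} (h : Chart P Q x y z)
    {o : E → ℤ} (ho : IsVal o) (hc : Ctr (cr k x y z) o) {a : k}
    (hx : 0 < o (x - algebraMap k E a)) : o (x - algebraMap k E a) = 1 ∧ o z = 0 := by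
  have hdeg : ∀ l : k[X], l ≠ 0 → l ^ 2 = C (P.eval a) + C (Q.eval a) * X ^ 2 →
      o (x - algebraMap k E a) = 1 ∧ o z = 0 := by
    intro l hl hl2
    rcases hLVS k E P Q x y z h a l hl2 o ho hc.nn hx with h1 | h1
    · obtain ⟨o₁, -, -, e1, e2, -, e3⟩ := hLVD k E P Q x y z h a l hl hl2
      rw [e3 o ho hc hx h1]
      exact ⟨e1, e2⟩
    · obtain ⟨o₁, -, -, e1, e2, -, e3⟩ := hLVD k E P Q x y z h a (-l) (neg_ne_zero.mpr hl)
        (by rw [neg_sq]; exact hl2)
      rw [e3 o ho hc hx (by rw [map_neg, sub_neg_eq_add]; exact h1)]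
      exact ⟨e1, e2⟩
  by_cases h0 : (P * Q).eval a = 0
  · rw [eval_mul] at h0
    rcases mul_eq_zero.mp h0 with hP | hQ
    · have hQ : Q.eval a ≠ 0 := fun hQ => not_both h.sep a hP hQ
      obtain ⟨ρ, hρ⟩ := IsAlgClosed.exists_pow_nat_eq (Q.eval a) (n := 2) (by norm_num)
      have hρ0 : ρ ≠ 0 := by
        intro h
        rw [h] at hρ
        apply hQ
        rw [← hρ]
        ring
      refine hdeg (C ρ * X) (mul_ne_zero (C_ne_zero.mpr hρ0) X_ne_zero) ?_
      rw [hP, ← hρ, mul_pow, C_0, zero_add, ← C_pow]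
    · have hP : P.eval a ≠ 0 := fun hP => not_both h.sep a hP hQ
      obtain ⟨ρ, hρ⟩ := IsAlgClosed.exists_pow_nat_eq (P.eval a) (n := 2) (by norm_num)
      have hρ0 : ρ ≠ 0 := by
        intro h
        rw [h] at hρ
        apply hP
        rw [← hρ]
        ring
      refine hdeg (C ρ) (C_ne_zero.mpr hρ0) ?_
      rw [hQ, ← hρ, C_0, zero_mul, add_zero, ← C_pow]
  · obtain ⟨o₁, -, -, e1, e2, e3⟩ := hLVR k E P Q x y z h a h0
    rw [e3 o ho hc hx]
    exact ⟨e1, e2⟩

/-- A pair of charts. -/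
theorem two_charts (hLVR : LVR) (hLVD : LVD) (hLVS : LVS) {k E : Type} [Field k] [IsAlgClosed k]
    [CharZero k] [Field E] [Algebra k E] {P Q : k[X]} {x y z y' z' : E} (h : Chart P Q x y z)
    (h' : Chart Q P x y' z') (hz' : z' = z⁻¹)
    {o : E → ℤ} (ho : IsVal o) (hk : ∀ c : k, 0 ≤ o (algebraMap k E c))
    (hA : (∀ b ∈ cr k x y z, 0 ≤ o b) → Ctr (cr k x y z) o)
    (hA' : (∀ b ∈ cr k x y' z', 0 ≤ o b) → Ctr (cr k x y' z') o) {a : k}
    (hx : 0 < o (x - algebraMap k E a)) :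
    o (x - algebraMap k E a) = 1 ∧ o z = 0 ∧ Ctr (cr k x y z) o := by
  by_cases hz : 0 ≤ o z
  · have hc := hA (chart_nn h ho hk hx hz)
    obtain ⟨e1, e2⟩ := one_chart hLVR hLVD hLVS h ho hc hx
    exact ⟨e1, e2, hc⟩
  · exfalso
    have hz0 : z ≠ 0 := by
      intro h0
      rw [h0, ho.zero] at hz
      exact hz le_rfl
    have h1 : o z' = - o z := by
      rw [hz', val_inv ho hz0]
    have h2 : 0 ≤ o z' := by omega
    have hc := hA' (chart_nn h' ho hk hx h2)
    obtain ⟨-, e2⟩ := one_chart hLVR hLVD hLVS h' ho hc hx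
    omega

theorem pf_VZA : T_VZA := by
  intro hGLU hSPR hCHT hLVR hLVD hLVS k F _ _ _ _ _ P Q s y z hcb v
  obtain ⟨c0, c1, c2, c3⟩ := hCHT k F P Q s y z hcb
  have ho := pd_val v
  obtain ⟨i, hi⟩ := pd_ctr v
  have hk : ∀ c : k, 0 ≤ v.ord (algebraMap k F c) :=
    fun c => hi.nn _ (Subalgebra.algebraMap_mem _ c)
  have hall : ∀ j : Fin 4, (∀ b ∈ ch k s y z j, 0 ≤ v.ord b) → Ctr (ch k s y z j) v.ord :=
    fun j hj => hSPR k F (ch k s y z i) (ch k s y z j) (hGLU k F P Q s y z hcb i j)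
      (hGLU k F P Q s y z hcb j i) v.ord ho hi hj
  refine ⟨?_, ?_⟩
  · intro a ha
    exact two_charts hLVR hLVD hLVS c0 c1 rfl ho hk (hall 0) (hall 1) ha
  · intro hs
    have hs0 : s ≠ 0 := by
      intro h
      have h2 : v.ord s = 0 := (congrArg v.ord h).trans ho.zero
      rw [h2] at hs
      exact lt_irrefl _ hs
    have h1 := val_inv ho hs0
    have hx : 0 < v.ord (s⁻¹ - algebraMap k F 0) := by
      rw [map_zero, sub_zero]
      omega
    obtain ⟨e1, e2, e3⟩ := two_charts hLVR hLVD hLVS c2 c3 (by rw [inv_div]) ho hk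
      (hall 2) (hall 3) hx
    rw [map_zero, sub_zero] at e1
    exact ⟨by omega, e2, e3⟩

end Pool.Agent.H4.UNT
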